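import Pool.Agent.Q279.Col.Four

/-!
# The 2-adic valuation of `S_{4, 2^s}(n)` (MP_c5dce0_nt, Q1)

`S k m n` (file `Pool.Agent.Q279.Col.Defs`) is the coefficient of `x ^ n` in the power series
`(1 - x)^{-m} ∏_{i ≥ 0} (1 - x^{k^i})^{-m (k - 1)}` over `ℤ` (the infinite product converges
coefficientwise, see `Q279.Col.multipliable_pow`; its inverse is characterised by
`Q279.Col.den_mul_H`).
-/

set_option autoImplicit false

namespace Pool.Agent.Results.MP_c5dce0_nt.ValuationFormula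

open Q279.Col

/-- For all `s ≥ 2` and `n ≥ 1`, `ν₂(S_{4,2^s}(n)) = s + 1 + (ν₂(2n) mod 2)`. Here `emultiplicity 2 N`
is the exponent of the largest power of `2` dividing `N` (and `⊤` if `N = 0`). -/
theorem result (s n : ℕ) (hs : 2 ≤ s) (hn : 1 ≤ n) :
    emultiplicity (2 : ℤ) (S 4 (2 ^ s) n) = ((s + 1 + padicValNat 2 (2 * n) % 2 : ℕ) : ℕ∞) := by
  obtain ⟨t, rfl⟩ : ∃ t, s = t + 2 := ⟨s - 2, by omega⟩
  have h := emult_S4 t 1 (by norm_num) n hn
  rw [show 4 * 2 ^ t * 1 = 2 ^ (t + 2) by ring] at h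
  rw [h]

end Pool.Agent.Results.MP_c5dce0_nt.ValuationFormula
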